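import Pool.Agent.H.MP_913ab3_an.Main

set_option autoImplicit false

namespace Pool.Agent.Results.MP_913ab3_an.Full

open Pool.Agent.H.MP_913ab3_an Filter Topology

/-- `S 1` is the right limit of the series at `1`, and `S` is strictly increasing on `[1,∞)`. -/
theorem result : Tendsto ser (𝓝[>] 1) (𝓝 (S 1)) ∧ StrictMonoOn S (Set.Ici 1) :=
  main

end Pool.Agent.Results.MP_913ab3_an.Full
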